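import Mathlib
import Pool.Agent.H89.PM3

set_option autoImplicit false

namespace Pool.Agent.Results.MP_b575e9_co.Holds
open Filter Topology

/-- The probability that a uniformly random `n × n` matrix over `F` has permanent `a`. -/
noncomputable def prob (F : Type) [Field F] [Finite F] (n : ℕ) (a : F) : ℝ :=
  (Nat.card {A : Matrix (Fin n) (Fin n) F // A.permanent = a} : ℝ) /
    Nat.card (Matrix (Fin n) (Fin n) F)

theorem result (F : Type) [Field F] [Finite F] (hq : Odd (Nat.card F)) (a : F) :
    Tendsto (fun n => prob F n a) atTop (𝓝 (1 / (Nat.card F : ℝ))) := by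
  classical
  have := Fintype.ofFinite F
  rw [Nat.card_eq_fintype_card] at hq ⊢
  have h2 : (2 : F) ≠ 0 := by
    apply Ring.two_ne_zero
    intro h
    have := FiniteField.even_card_iff_char_two.1 h
    rw [Nat.odd_iff] at hq
    omega
  rw [Metric.tendsto_atTop]
  intro ε hε
  obtain ⟨n0, h⟩ := Pool.Agent.H89.PM.main h2 a (ε / 2) (by positivity)
  refine ⟨n0, fun n hn => ?_⟩
  rw [Real.dist_eq]
  refine lt_of_le_of_lt (le_of_eq_of_le ?_ (h n hn)) (by linarith)
  congr 2
  rw [prob, Nat.card_eq_fintype_card, Nat.card_eq_fintype_card, Fintype.card_subtype,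
    Pool.Agent.H89.PM.E]
  congr 1
  · rw [Finset.card_filter]
    push_cast
    refine Finset.sum_congr rfl fun A _ => ?_
    rw [← Matrix.permanent_transpose]
    simp only [Pool.Agent.H89.MX.ind, Matrix.permanent, Matrix.transpose_apply]

end Pool.Agent.Results.MP_b575e9_co.Holds
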